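import Pool.Agent.COV.StmtsD
import Pool.Agent.Helper51_TTC.NA6

/-!
# Row CV9 of squad COV (MP_160b6c_nt), after CVT of helper4
-/

set_option autoImplicit false

namespace Pool.Agent.COV.H73

open Polynomial NumberField Pool.Agent.TTC

theorem cv9 (h1 : CvmStmt) (h2 : CvsStmt) : Cv9Stmt := by
  intro K _ _ n a α ha hsq hα hC σ
  let _ : Algebra K ℂ := σ.toAlgebra
  let ψ : AlgebraicClosure K →ₐ[K] ℂ := IsAlgClosed.lift
  have hψ : ψ.toRingHom.comp (algebraMap K (AlgebraicClosure K)) = σ := by
    ext x
    exact ψ.commutes x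
  have na := TTC.H51.na6 K ℂ σ a
  have hC2 : Cov n (TTC.om (fun i => σ (a i)) (σ α)) := by
    have h3 := h1.2 (AlgebraicClosure K) ℂ ψ.toRingHom n _ hC
    unfold acl at h3
    rw [Polynomial.map_map, hψ, ← na.2.2.2 α] at h3
    exact h3
  have es : sext (fun i => σ (a i)) = (sext a).map σ := na.1
  have hroot : (sext (fun i => σ (a i))).eval (σ α) = 0 := by
    rw [es, Polynomial.eval_map_apply, hα, map_zero]
  have hsep : ((sext a).map σ).Separable := by
    have h5 : (sext a).Separable := PerfectField.separable_iff_squarefree.2 hsq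
    exact h5.map
  have hd : (derivative (sext (fun i => σ (a i)))).eval (σ α) ≠ 0 := by
    rw [es] at hroot ⊢
    intro h0
    obtain ⟨u, v, huv⟩ := hsep
    have h8 := congrArg (Polynomial.eval (σ α)) huv
    rw [eval_add, eval_mul, eval_mul, hroot, h0, mul_zero, mul_zero, add_zero, eval_one] at h8
    exact zero_ne_one h8
  have h9 := h2 ℂ n (fun i => σ (a i)) (σ α)
    (fun h => ha (by rw [← map_zero σ] at h; exact σ.injective h)) hroot hd hC2
  rw [es] at h9
  exact h9

end Pool.Agent.COV.H73
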