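import Pool.Agent.COV.StmtsD
import Pool.Agent.Helper22_TTC.SF6

/-!
# Row GD9 of squad COV (MP_160b6c_nt), after FA8 of helper60
-/

set_option autoImplicit false

namespace Pool.Agent.COV.H73

open Polynomial NumberField Pool.Agent.SZT Pool.Agent.KDD Pool.Agent.TTC

/-- a sextic with `d6 ≠ 0` is squarefree -/
theorem sqf_of_d6 (na6 : Na6Stmt) (cr6 : Cr6Stmt) (k : Type) [Field k] [CharZero k]
    (a : Fin 7 → k) (ha : d6 a ≠ 0) : a 0 ≠ 0 ∧ (sext a).natDegree = 6 ∧ Squarefree (sext a) := by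
  have h0 : a 0 ≠ 0 := fun h => ha (TTC.H22.d6_zero a h)
  have hF : (sext a).natDegree = 6 := TTC.H22.sext_natDegree a h0
  refine ⟨h0, hF, ?_⟩
  obtain ⟨φ, hφ⟩ : ∃ φ, φ = algebraMap k (AlgebraicClosure k) := ⟨_, rfl⟩
  have hC := na6 k (AlgebraicClosure k) φ a
  have hd : d6 (fun i => φ (a i)) ≠ 0 := by
    rw [hC.2.1]
    intro h
    exact ha ((map_eq_zero_iff φ φ.injective).1 h)
  have h0C : (fun i => φ (a i)) 0 ≠ 0 := by
    intro h
    exact h0 ((map_eq_zero_iff φ φ.injective).1 h)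
  have : CharZero (AlgebraicClosure k) := charZero_of_injective_algebraMap
    (algebraMap k (AlgebraicClosure k)).injective
  have hcr := (cr6 (AlgebraicClosure k) (fun i => φ (a i)) (by norm_num) h0C).1
  have hno : ¬ ∃ θ : AlgebraicClosure k, (sext (fun i => φ (a i))).eval θ = 0 ∧
      (derivative (sext (fun i => φ (a i)))).eval θ = 0 :=
    fun h => hd (hcr.2 h)
  rw [hC.1] at hno
  intro x hx
  by_contra hu
  have hne : sext a ≠ 0 := by
    intro h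
    rw [h, natDegree_zero] at hF
    omega
  have hx0 : x ≠ 0 := by
    rintro rfl
    rw [zero_mul, zero_dvd_iff] at hx
    exact hne hx
  have hdeg : (x.map φ).degree ≠ 0 := by
    rw [degree_map]
    intro h
    exact hu (isUnit_iff_degree_eq_zero.2 h)
  obtain ⟨θ, hθ'⟩ := IsAlgClosed.exists_root _ hdeg
  have hθ : (x.map φ).eval θ = 0 := hθ'
  obtain ⟨y, hy⟩ := hx
  have h1 : (sext a).map φ = x.map φ * x.map φ * y.map φ := by
    rw [← Polynomial.map_mul, ← Polynomial.map_mul, ← hy]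
  refine hno ⟨θ, ?_, ?_⟩
  · rw [h1, eval_mul, eval_mul, hθ, zero_mul, zero_mul]
  · rw [h1, derivative_mul, derivative_mul, eval_add, eval_mul, eval_mul, eval_add, eval_mul,
      eval_mul, eval_mul, hθ]
    ring

/-- the numerical inequality -/
theorem num9 (d n A M : ℕ) (ε lh lr sS : ℝ) (hε : 0 < ε) (hM : 2 ≤ M) (hn : n ≤ d)
    (h1 : lh ≤ (n : ℝ) * (A * Real.log (4 * M))) (h2 : ε * Real.log M ≤ lr) (h3 : lr ≤ 6 * sS) :
    ε / (18 * ((A + 1) * (d + 1))) * lh ≤ sS := by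
  have hM' : (2 : ℝ) ≤ (M : ℝ) := by exact_mod_cast hM
  have hM0 : (0 : ℝ) < (M : ℝ) := by linarith
  have hlM : Real.log 2 ≤ Real.log M := Real.log_le_log (by norm_num) hM'
  have hl2 : 0 < Real.log 2 := Real.log_pos (by norm_num)
  have h4 : Real.log (4 * M) ≤ 3 * Real.log M := by
    rw [Real.log_mul (by norm_num) hM0.ne']
    have : Real.log 4 = 2 * Real.log 2 := by
      rw [show (4 : ℝ) = 2 ^ 2 by norm_num, Real.log_pow]
      norm_num
    rw [this]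
    linarith
  have hA0 : (0 : ℝ) ≤ (A : ℝ) := Nat.cast_nonneg A
  have hn0 : (0 : ℝ) ≤ (n : ℝ) := Nat.cast_nonneg n
  have hd' : (n : ℝ) ≤ (d : ℝ) := by exact_mod_cast hn
  have hlM0 : 0 ≤ Real.log M := by linarith
  have h5 : lh ≤ ((A + 1) * (d + 1)) * (3 * Real.log M) := by
    calc lh ≤ (n : ℝ) * (A * Real.log (4 * M)) := h1
      _ ≤ (n : ℝ) * (A * (3 * Real.log M)) := by gcongr
      _ ≤ ((d : ℝ) + 1) * (((A : ℝ) + 1) * (3 * Real.log M)) := by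
          gcongr
          · linarith
          · linarith
      _ = ((A + 1) * (d + 1)) * (3 * Real.log M) := by ring
  have hpos : 0 < ((A : ℝ) + 1) * ((d : ℝ) + 1) := by positivity
  calc ε / (18 * ((A + 1) * (d + 1))) * lh
      ≤ ε / (18 * ((A + 1) * (d + 1))) * (((A + 1) * (d + 1)) * (3 * Real.log M)) := by gcongr
    _ = ε * Real.log M / 6 := by
        field_simp
        ring
    _ ≤ sS := by linarith

/-- **GD9** -/
theorem gd9 (hNA : TTC.Na6Stmt) (hNA7 : TTC.Na7Stmt) (hCR : TTC.Cr6Stmt) (hK : KdcStmt)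
    (hEX : ExvStmt) (hSI : Si9Stmt) (hLO : Lo9Stmt) (hOM : Om9Stmt) (hHT : Ht9Stmt)
    (hPG : Pg9Stmt) (hPL : TTC.Pl6Stmt) (hCV : Cv9Stmt) : Gd9Stmt := by
  intro K₀ _ _ d ε hε
  obtain ⟨A, hA⟩ := hHT
  obtain ⟨B, hB⟩ := hK d (ε / (18 * ((A + 1) * (d + 1)))) (by positivity)
  refine ⟨B, ?_⟩
  intro a M j m s hM hMa hnorm hrad
  have hda : d6 a ≠ 0 := by
    intro h
    rw [h] at hnorm
    exact hnorm (Algebra.norm_zero)
  have hNA0 := hNA (𝓞 K₀) K₀ (algebraMap (𝓞 K₀) K₀) a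
  have hda0 : d6 (fun i => ((a i : 𝓞 K₀) : K₀)) ≠ 0 := by
    intro h
    have h1 : algebraMap (𝓞 K₀) K₀ (d6 a) = 0 := hNA0.2.1.symm.trans h
    exact hda ((map_eq_zero_iff _ (IsFractionRing.injective (𝓞 K₀) K₀)).1 h1)
  obtain ⟨ha0, hdeg6, hsqf⟩ := sqf_of_d6 hNA hCR K₀ _ hda0
  refine ⟨hdeg6, hsqf, ?_⟩
  by_cases hC : ∀ ψ : K₀ →+* ℂ, Cov B (sext fun i => ψ ((a i : 𝓞 K₀) : K₀))
  · exact Or.inl hC
  right
  rw [not_forall] at hC
  obtain ⟨ψ, hψ⟩ := hC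
  intro K _ _ _ hfr hspl
  obtain ⟨a', ha'⟩ : ∃ a' : Fin 7 → K, a' = fun i => algebraMap K₀ K ((a i : 𝓞 K₀) : K₀) :=
    ⟨_, rfl⟩
  rw [← ha'] at hspl ⊢
  obtain ⟨φ, hφ⟩ : ∃ φ : 𝓞 K₀ →+* K, φ = (algebraMap K₀ K).comp (algebraMap (𝓞 K₀) K₀) :=
    ⟨_, rfl⟩
  have ea : a' = fun i => φ (a i) := by rw [ha', hφ]; rfl
  have ed : d6 a' = φ (d6 a) := by
    rw [ea]
    exact (hNA (𝓞 K₀) K φ a).2.1
  have ee : e7 j m a' = φ (e7 j m a) := by
    rw [ea]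
    exact hNA7 (𝓞 K₀) K φ a j m
  have hφc : ∀ x : 𝓞 K₀, φ x = ((algebraMap (𝓞 K₀) (𝓞 K) x : 𝓞 K) : K) := by
    intro x
    rw [hφ]
    rfl
  have hφ0 : ∀ x : 𝓞 K₀, φ x = algebraMap K₀ K (x : K₀) := by
    intro x
    rw [hφ]
    rfl
  have hφinj : Function.Injective φ := by
    rw [hφ]
    exact (algebraMap K₀ K).injective.comp (IsFractionRing.injective (𝓞 K₀) K₀)
  have hda' : d6 a' ≠ 0 := by
    rw [ed]
    intro h
    exact hda ((map_eq_zero_iff φ hφinj).1 h)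
  obtain ⟨ha0', hdeg6', hsqf'⟩ := sqf_of_d6 hNA hCR K _ hda'
  have ea2 : ∀ i, a' i = ((algebraMap (𝓞 K₀) (𝓞 K) (a i) : 𝓞 K) : K) := by
    intro i
    rw [← hφc, ea]
  have hint' : ∀ i, IsIntegral ℤ (a' i) := by
    intro i
    rw [ea2]
    exact RingOfIntegers.isIntegral_coe _
  obtain ⟨P, hPd⟩ : ∃ P, P = (Algebra.norm ℤ (d6 a)).natAbs.primeFactors.filter
      (fun p => ¬ ((p : ℕ) : ℤ) ∣ Algebra.norm ℤ (e7 j m a + (s : 𝓞 K₀) * d6 a)) := ⟨_, rfl⟩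
  have hradP : rad2 (Algebra.norm ℤ (d6 a))
      (Algebra.norm ℤ (e7 j m a + (s : 𝓞 K₀) * d6 a)) = ∏ p ∈ P, p := by
    rw [hPd]
    rfl
  rw [hradP] at hrad
  have hpr : ∀ p ∈ P, p.Prime ∧ (p : ℤ) ∣ Algebra.norm ℤ (d6 a) ∧
      ¬ (p : ℤ) ∣ Algebra.norm ℤ (e7 j m a + (s : 𝓞 K₀) * d6 a) := by
    intro p hp
    rw [hPd, Finset.mem_filter] at hp
    exact ⟨Nat.prime_of_mem_primeFactors hp.1,
      Int.natCast_dvd.2 (Nat.dvd_of_mem_primeFactors hp.1), hp.2⟩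
  have hle1 : ∀ (v : FinitePlace K) (x : 𝓞 K), v (x : K) ≤ 1 := by
    intro v x
    rw [← FinitePlace.norm_embedding_eq]
    exact FinitePlace.norm_le_one K v.maximalIdeal x
  have hW : ∀ p ∈ P, ∃ v : FinitePlace K, v (p : K) < 1 ∧
      (v (d6 a') < 1 ∧ v (e7 j m a') = 1) := by
    intro p hp
    obtain ⟨h1, h2, h3⟩ := hpr p hp
    obtain ⟨v, hv1, hv2, hv3⟩ := hEX K₀ K (d6 a) (e7 j m a + (s : 𝓞 K₀) * d6 a) p h1 h2 h3
    have hmem : ∀ x : 𝓞 K, v (x : K) < 1 ↔ x ∈ v.maximalIdeal.asIdeal := by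
      intro x
      rw [← FinitePlace.norm_embedding_eq]
      exact FinitePlace.norm_lt_one_iff_mem K v.maximalIdeal x
    have hnot : ∀ x : 𝓞 K, v (x : K) = 1 ↔ x ∉ v.maximalIdeal.asIdeal := by
      intro x
      rw [← FinitePlace.norm_embedding_eq]
      exact FinitePlace.norm_eq_one_iff_notMem K v.maximalIdeal x
    rw [← hφ0] at hv2 hv3
    have g2 := hv2
    have g3 := hv3
    rw [hφc, hmem] at g2
    rw [hφc, hnot] at g3
    refine ⟨v, hv1, ?_, ?_⟩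
    · rw [ed, hφc, hmem]
      exact g2
    · rw [ee, hφc, hnot]
      intro h4
      apply g3
      rw [map_add, map_mul]
      exact Ideal.add_mem _ h4 (Ideal.mul_mem_left _ _ g2)
  obtain ⟨α, hα, P', hP'P, hsum, hP'⟩ := hPG K a' P
    (fun v => v (d6 a') < 1 ∧ v (e7 j m a') = 1) ha0' hspl (fun p hp => by
      obtain ⟨v, hv1, hv2⟩ := hW p hp
      obtain ⟨α, hα1, hα2⟩ := hSI K v a' j m (fun i => by
        rw [ea2]
        exact hle1 v _) hv2.1 hv2.2 hspl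
      exact ⟨v, α, hv1, hv2, hα1, hα2⟩)
  refine ⟨α, hα, ?_⟩
  intro Y hY x hx
  obtain ⟨S, hS1, hS2⟩ := hPL K P' (fun v => CubeFree v.val Y.f ∧ v (discr Y.f) < 1)
    (fun p hp => by
      obtain ⟨h1, -, -⟩ := hpr p (hP'P hp)
      obtain ⟨v, hv1, hv2, hv3⟩ := hP' p hp
      refine ⟨h1, v, hv1, ?_⟩
      rw [hY]
      exact hLO K v a' α j m (fun i => by
        rw [ea2]
        exact hle1 v _) hv2.1 hv2.2 hα hv3)
  obtain ⟨hmon, hdeg, hint⟩ := hOM K a' α hint' ha0' hα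
  rw [← hY] at hmon hdeg hint
  have hlog : Real.log ((∏ p ∈ P, p : ℕ) : ℝ) = ∑ p ∈ P, Real.log p := by
    rw [Nat.cast_prod, Real.log_prod]
    intro p hp
    have := (hpr p hp).1.ne_zero
    exact_mod_cast this
  have hM0 : (0 : ℝ) < (M : ℝ) := by
    have : (2 : ℝ) ≤ (M : ℝ) := by exact_mod_cast hM
    linarith
  have hineq : ε / (18 * ((A + 1) * (d + 1))) * lH Y.f ≤
      ∑ v ∈ S, Real.log (Ideal.absNorm v.maximalIdeal.asIdeal) := by
    refine num9 d (Module.finrank ℚ K) A M ε _ (∑ p ∈ P, Real.log p) _ hε hM hfr ?_ ?_ ?_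
    · rw [hY]
      refine hA K a' α M (by omega) (fun ψ' i => ?_) ha0' hα
      rw [ha']
      exact hMa (ψ'.comp (algebraMap K₀ K)) i
    · have g1 : Real.log ((M : ℝ) ^ ε) ≤ Real.log ((∏ p ∈ P, p : ℕ) : ℝ) :=
        Real.log_le_log (Real.rpow_pos_of_pos hM0 ε) hrad
      rw [hlog, Real.log_rpow hM0] at g1
      exact g1
    · calc ∑ p ∈ P, Real.log p ≤ 6 * ∑ p ∈ P', Real.log p := hsum
        _ ≤ 6 * ∑ v ∈ S, Real.log (Ideal.absNorm v.maximalIdeal.asIdeal) := by gcongr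
  rcases hB K hfr Y hmon hdeg hint S hS1 hineq x hx with h | h
  · exact h
  · exfalso
    apply hψ
    rw [hY] at h
    -- extend `ψ` to `K`
    let _ : Algebra K₀ ℂ := ψ.toAlgebra
    have : Algebra.IsAlgebraic K₀ K := Algebra.IsAlgebraic.tower_top (K := ℚ) K₀
    let ψ' : K →ₐ[K₀] ℂ := IsAlgClosed.lift
    have h1 := hCV K B a' α ha0' hsqf' hα h ψ'.toRingHom
    have h2 : (sext a').map ψ'.toRingHom = sext (fun i => ψ ((a i : 𝓞 K₀) : K₀)) := by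
      rw [← (hNA K ℂ ψ'.toRingHom a').1]
      have h3 : (fun i => ψ'.toRingHom (a' i)) = fun i => ψ ((a i : 𝓞 K₀) : K₀) := by
        funext i
        rw [ha']
        exact ψ'.commutes _
      rw [h3]
    rw [h2] at h1
    exact h1

end Pool.Agent.COV.H73
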